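import Pool.Agent.helper95.RF.SpecC3

/-!
# Project RF (MP_16912e_nt), stage 2, block C', row GFI (assembly of block C')
-/

set_option autoImplicit false

namespace Pool.Agent.RF

open Finset NumberField Pool.Agent.helper3.FT

theorem GFI_unit (l : ℕ) (hl : l.Prime) (h : (l : OO) ∣ 1) : False := by
  obtain ⟨w, hw⟩ := h
  have e1 := congrArg QuadraticAlgebra.re hw
  simp at e1
  have e2 : (l : ℤ) ∣ 1 := ⟨w.re, e1⟩
  have e3 : l ∣ 1 := by exact_mod_cast e2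
  exact hl.one_lt.ne' (Nat.dvd_one.1 e3)

theorem GFI_bad {P l : ℕ} {n : OO} (hl : l.Prime) (hln : (l : OO) ∣ n) (h10 : l ∣ 10 * P) (h2 : IsCoprime 2 n)
    (h25 : (25 : OO) ∣ n - 1) (hP : (P : OO) ∣ n - 1) : False := by
  have hkey : (l : OO) ∣ n - 1 → False := by
    intro h
    apply GFI_unit l hl
    have e : (1 : OO) = n - (n - 1) := by ring
    rw [e]
    exact dvd_sub hln h
  have h1 : l ∣ 2 * 5 * P := by
    have : 10 * P = 2 * 5 * P := by ring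
    rwa [this] at h10
  rcases (Nat.Prime.dvd_mul hl).1 h1 with h3 | h3
  · rcases (Nat.Prime.dvd_mul hl).1 h3 with h4 | h4
    · have h5 : l = 2 := (Nat.prime_dvd_prime_iff_eq hl Nat.prime_two).1 h4
      subst h5
      apply GFI_unit 2 hl
      obtain ⟨a, b, hab⟩ := h2
      rw [← hab]
      exact dvd_add (Dvd.intro_left a rfl) (hln.mul_left b)
    · have h5 : l = 5 := (Nat.prime_dvd_prime_iff_eq hl Nat.prime_five).1 h4
      subst h5
      apply hkey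
      refine dvd_trans ?_ h25
      refine ⟨5, ?_⟩
      push_cast
      norm_num
  · apply hkey
    refine dvd_trans ?_ hP
    obtain ⟨m, rfl⟩ := h3
    exact ⟨(m : OO), by push_cast; ring⟩

/-- the real inequalities -/
theorem GFI_real (N S q s D nn X ρ : ℝ) (hN : 1936 ≤ N) (hX0 : 0 < X) (hq1 : X ^ 2 ≤ q) (hq2 : q ≤ 108 / 100 * X ^ 2)
    (hS0 : 0 < S) (hS3 : S ^ 3 = 500 * N * X ^ 8) (hs1 : S / 2 ≤ s) (hs2 : s ≤ S) (h1 : s ^ 3 ≤ 2000 * q ^ 4 * D)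
    (h2 : 500 * q ^ 4 * D ≤ s ^ 3) (h3 : q ^ 2 * nn ≤ 2 * s ^ 2) (hρ : 1000000 ≤ ρ) (hX : X ^ 4 * ρ ^ 2 = N) :
    0 < D ∧ √N ≤ D ∧ D ≤ N ∧ nn ≤ D := by
  have hs0 : 0 < s := by linarith
  have hX2 : 0 < X ^ 2 := by positivity
  have hq0 : 0 < q := by linarith
  have hX8 : 0 < X ^ 8 := by positivity
  have hN0 : 0 < N := by linarith
  have hD0 : 0 < D := by
    by_contra hcon
    push Not at hcon
    have : 2000 * q ^ 4 * D ≤ 0 := mul_nonpos_of_nonneg_of_nonpos (by positivity) hcon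
    have : 0 < s ^ 3 := by positivity
    linarith
  have e1 : D ≤ N := by
    have a1 : X ^ 8 ≤ q ^ 4 := by
      calc X ^ 8 = (X ^ 2) ^ 4 := by ring
        _ ≤ q ^ 4 := pow_le_pow_left₀ hX2.le hq1 4
    have a2 : s ^ 3 ≤ S ^ 3 := pow_le_pow_left₀ hs0.le hs2 3
    have a3 : 500 * X ^ 8 * D ≤ 500 * q ^ 4 * D := by
      apply mul_le_mul_of_nonneg_right _ hD0.le
      linarith
    have a4 : (500 * X ^ 8) * D ≤ (500 * X ^ 8) * N := by linarith
    exact le_of_mul_le_mul_left a4 (by positivity)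
  have e2 : N / 44 ≤ D := by
    have a1 : q ^ 4 ≤ 1361 / 1000 * X ^ 8 := by
      calc q ^ 4 ≤ (108 / 100 * X ^ 2) ^ 4 := pow_le_pow_left₀ hq0.le hq2 4
        _ = (108 / 100) ^ 4 * X ^ 8 := by ring
        _ ≤ 1361 / 1000 * X ^ 8 := mul_le_mul_of_nonneg_right (by norm_num) hX8.le
    have a2 : (S / 2) ^ 3 ≤ s ^ 3 := pow_le_pow_left₀ (by positivity) hs1 3
    have a3 : 2000 * q ^ 4 * D ≤ 2000 * (1361 / 1000 * X ^ 8) * D := by
      apply mul_le_mul_of_nonneg_right _ hD0.le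
      linarith
    have a4 : (S / 2) ^ 3 = 500 / 8 * N * X ^ 8 := by
      have : (S / 2) ^ 3 = S ^ 3 / 8 := by ring
      rw [this, hS3]
      ring
    have a5 : X ^ 8 * (500 / 8 * N) ≤ X ^ 8 * (2722 * D) := by
      have b1 : X ^ 8 * (500 / 8 * N) = 500 / 8 * N * X ^ 8 := by ring
      have b2 : 2000 * (1361 / 1000 * X ^ 8) * D = X ^ 8 * (2722 * D) := by ring
      linarith
    have a6 : 500 / 8 * N ≤ 2722 * D := le_of_mul_le_mul_left a5 hX8
    linarith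
  have e3 : √N ≤ N / 44 := by
    have b0 : √(1936 : ℝ) = 44 := by
      rw [show (1936 : ℝ) = 44 ^ 2 by norm_num]
      exact Real.sqrt_sq (by norm_num)
    have b1 : (44 : ℝ) ≤ √N := by rw [← b0]; exact Real.sqrt_le_sqrt hN
    have b2 : √N * √N = N := Real.mul_self_sqrt (by linarith)
    nlinarith
  have e4 : nn ≤ N / 44 := by
    have c1 : X ^ 4 ≤ q ^ 2 := by
      calc X ^ 4 = (X ^ 2) ^ 2 := by ring
        _ ≤ q ^ 2 := pow_le_pow_left₀ hX2.le hq1 2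
    have c2 : s ^ 2 ≤ S ^ 2 := pow_le_pow_left₀ hs0.le hs2 2
    have c3 : S ^ 2 ≤ N * X ^ 4 / 88 := by
      rw [← pow_le_pow_iff_left₀ (by positivity) (by positivity) (by norm_num : (3 : ℕ) ≠ 0)]
      have d1 : (S ^ 2) ^ 3 = 250000 * N ^ 2 * X ^ 16 := by
        calc (S ^ 2) ^ 3 = (S ^ 3) ^ 2 := by ring
          _ = (500 * N * X ^ 8) ^ 2 := by rw [hS3]
          _ = 250000 * N ^ 2 * X ^ 16 := by ring
      have d2 : (N * X ^ 4 / 88) ^ 3 = N ^ 3 * X ^ 12 / 681472 := by ring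
      rw [d1, d2, le_div_iff₀ (by norm_num)]
      have d3 : 170368000000 * X ^ 4 ≤ N := by
        rw [← hX]
        have d4 : (170368000000 : ℝ) ≤ ρ ^ 2 := by nlinarith
        have d5 : 0 < X ^ 4 := by positivity
        nlinarith
      have d6 : 0 ≤ N ^ 2 * X ^ 12 := by positivity
      calc 250000 * N ^ 2 * X ^ 16 * 681472 = N ^ 2 * X ^ 12 * (170368000000 * X ^ 4) := by ring
        _ ≤ N ^ 2 * X ^ 12 * N := mul_le_mul_of_nonneg_left d3 d6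
        _ = N ^ 3 * X ^ 12 := by ring
    by_cases hnn : nn ≤ 0
    · have : 0 < N / 44 := by positivity
      linarith
    · push Not at hnn
      have c4 : X ^ 4 * nn ≤ q ^ 2 * nn := mul_le_mul_of_nonneg_right c1 hnn.le
      have c5 : X ^ 4 * nn ≤ X ^ 4 * (N / 44) := by
        have : X ^ 4 * (N / 44) = 2 * (N * X ^ 4 / 88) := by ring
        rw [this]
        linarith
      exact le_of_mul_le_mul_left c5 (by positivity)
  exact ⟨hD0, e3.trans e2, e1, e4.trans e2⟩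

theorem GFI_SZ (N X : ℝ) (hN : 0 < N) (hX : 0 < X) : 0 < SZ N X ∧ SZ N X ^ 3 = 500 * N * X ^ 8 := by
  unfold SZ
  have h : 0 < 500 * N * X ^ 8 := by positivity
  refine ⟨Real.rpow_pos_of_pos h _, ?_⟩
  rw [← Real.rpow_natCast, ← Real.rpow_mul h.le]
  norm_num

theorem GFI_10 (k : OO) (h : Nat.Coprime k.norm.natAbs 10) : IsCoprime k 10 := by
  have h1 : IsCoprime k.norm (10 : ℤ) := by
    rw [Int.isCoprime_iff_gcd_eq_one]
    exact h
  have h2 : IsCoprime ((k.norm : ℤ) : OO) ((10 : ℤ) : OO) := h1.map (Int.castRingHom OO)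
  have h3 : ((k.norm : ℤ) : OO) = k * star k := by
    rw [← QuadraticAlgebra.algebraMap_norm_eq_mul_star]
    simp
  rw [h3] at h2
  have h4 := h2.of_mul_left_left
  exact_mod_cast h4

theorem GFI (h1 : GGD_stmt) (h2 : GKT_stmt) (h3 : CLO_stmt) (h4 : GPA_stmt) (h5 : CRG_stmt) : GFI_stmt := by
  classical
  obtain ⟨P, c, ρ₁, hP1, hP10, hc, hρ1, hGGD⟩ := h1
  set E : ℕ := 16 * 5 ^ 6 * P with hE
  have hE1 : 1 ≤ E := by omega
  refine ⟨c, hc, max ρ₁ 1000000, fun ρ hρ => ?_⟩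
  have hρa : ρ₁ ≤ ρ := (le_max_left _ _).trans hρ
  have hρb : 1000000 ≤ ρ := (le_max_right _ _).trans hρ
  have hρ0 : 0 < ρ := by linarith
  obtain ⟨N₁, hN₁⟩ := hGGD ρ hρa
  refine ⟨max N₁ (max 1936 (100000000 * ρ ^ 2)), fun N hN => ?_⟩
  have hNa : N₁ ≤ N := (le_max_left _ _).trans hN
  have hNb : 1936 ≤ N := ((le_max_left _ _).trans (le_max_right _ _)).trans hN
  have hNc : 100000000 * ρ ^ 2 ≤ N := ((le_max_right _ _).trans (le_max_right _ _)).trans hN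
  have hN0 : 0 < N := by linarith
  have hsN : 0 < √N := Real.sqrt_pos.2 hN0
  set X : ℝ := √(√N / ρ) with hX
  have hX0 : 0 < X := Real.sqrt_pos.2 (by positivity)
  have hX2 : X ^ 2 = √N / ρ := Real.sq_sqrt (by positivity)
  have hX4 : X ^ 4 * ρ ^ 2 = N := by
    have e1 : X ^ 4 = (X ^ 2) ^ 2 := by ring
    have e2 : √N ^ 2 = N := Real.sq_sqrt hN0.le
    rw [e1, hX2, div_pow, e2]
    field_simp
  have hX100 : 100 ≤ X := by
    by_contra hcon
    push Not at hcon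
    have e1 : X ^ 4 < 100 ^ 4 := pow_lt_pow_left₀ hcon hX0.le (by norm_num)
    have e2 : X ^ 4 * ρ ^ 2 < 100 ^ 4 * ρ ^ 2 := mul_lt_mul_of_pos_right e1 (by positivity)
    rw [hX4] at e2
    linarith
  obtain ⟨hKT1, hKT2⟩ := h2 X (10 * P) hX100 (Dvd.intro P rfl)
  obtain ⟨hS0, hS3⟩ := GFI_SZ N X hN0 hX0
  choose M₀ s₀ hcl using fun k => h3 P k hP10
  obtain ⟨F, hF1, hF2⟩ := hN₁ N X hNa hX0 hX2 M₀ s₀ (fun k => ⟨(hcl k).2.1, (hcl k).2.2.1, (hcl k).2.2.2.1, (hcl k).2.2.2.2.1⟩)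
  -- the points
  have hpt : ∀ t : OO × OO × ℤ, t ∈ F → ∃ p : Pt, p.k = t.1 ∧ p.M = 25 * t.2.1 ∧
      2 * ph * star p.n * t.1 ^ 2 = r5 * (t.2.2 : OO) - (t.2.1.norm : OO) ∧
      IsPt2 p ∧ √N ≤ (p.D : ℝ) ∧ (p.D : ℝ) ≤ N ∧ |p.n.norm| ≤ p.D ∧
      ∀ l : ℕ, l.Prime → (l : ℝ) ≤ ρ ^ (7 / 10 : ℝ) → ¬ (l : OO) ∣ p.n ∧
        ¬ ((l : ℤ) ∣ p.k.norm ∧ (l : ℤ) ∣ p.n.norm) := by
    rintro ⟨k, M, s⟩ ht
    obtain ⟨hT, hbad⟩ := hF1 _ ht
    have hkT : k ∈ KT X (10 * P) := hT.kk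
    have hCG : CG k M s := hT.cg
    obtain ⟨hKG, hcop, hnorm, hq1, hq2⟩ := hKT1 k hkT
    have hk0 : k ≠ 0 := by
      rintro rfl
      simp at hnorm
    have hc2 : Nat.Coprime k.norm.natAbs 2 := Nat.Coprime.coprime_dvd_right ⟨5 * P, by ring⟩ hcop
    have hc5 : Nat.Coprime k.norm.natAbs 5 := Nat.Coprime.coprime_dvd_right ⟨2 * P, by ring⟩ hcop
    have hcP : Nat.Coprime k.norm.natAbs P := Nat.Coprime.coprime_dvd_right ⟨10, by ring⟩ hcop
    have hcE : Nat.Coprime k.norm.natAbs E := by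
      have e16 : (16 : ℕ) = 2 ^ 4 := by norm_num
      rw [hE, e16]
      exact ((hc2.pow_right 4).mul_right (hc5.pow_right 6)).mul_right hcP
    obtain ⟨n, Y, D, g1, g2, g3, g4, g5, g6, g7, g8, g9, g10, g11⟩ :=
      h4 E P k (M₀ k) M (s₀ k) s hE hP10 hP1 hk0 hKG.cp hcE (hcl k).1 hT.cm hT.cs hCG
    have hq0 : 0 < k.norm.natAbs := Int.natAbs_pos.2 hnorm.ne'
    have hQq : ((⌊X ^ 2⌋₊ : ℕ) : ℝ) < (k.norm.natAbs : ℝ) := by exact_mod_cast hKG.lo
    have hsqQ : √((⌊X ^ 2⌋₊ : ℕ) : ℝ) ^ 2 = ((⌊X ^ 2⌋₊ : ℕ) : ℝ) := Real.sq_sqrt (by positivity)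
    have hva : va k ^ 2 ≤ 4 * (k.norm.natAbs : ℝ) := by
      have e1 : |va k| ^ 2 ≤ (2 * √((⌊X ^ 2⌋₊ : ℕ) : ℝ)) ^ 2 := pow_le_pow_left₀ (abs_nonneg _) hKG.ba 2
      rw [sq_abs, mul_pow, hsqQ] at e1
      linarith
    have hvb : vb k ^ 2 ≤ 4 * (k.norm.natAbs : ℝ) := by
      have e1 : |vb k| ^ 2 ≤ (2 * √((⌊X ^ 2⌋₊ : ℕ) : ℝ)) ^ 2 := pow_le_pow_left₀ (abs_nonneg _) hKG.bb 2
      rw [sq_abs, mul_pow, hsqQ] at e1
      linarith
    have hs1 : SZ N X / 2 ≤ (s : ℝ) := hT.s1.le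
    have hs2 : (s : ℝ) ≤ SZ N X := hT.s2
    obtain ⟨r1, r2, r3⟩ := h5 k M n Y s D (SZ N X) hS0 hq0 hva hvb hT.m1 hT.m2 hs1 hs2 g1 g2 g3
    obtain ⟨f1, f2, f3, f4⟩ := GFI_real N (SZ N X) (k.norm.natAbs : ℝ) (s : ℝ) D |(n.norm : ℝ)| X ρ hNb hX0 hq1 hq2
      hS0 hS3 hs1 hs2 r1 r2 r3 hρb hX4
    have hD0 : 0 < D := by exact_mod_cast f1
    have e25 : star (25 * k) = 25 * star k := by
      rw [star_mul, star_ofNat]
      ring
    refine ⟨⟨k, Y, n, 25 * M, D⟩, rfl, rfl, g1, ?_, f2, f3, ?_, ?_⟩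
    · refine { e1 := g3, e2 := ?_, e5 := ?_, X1 := g6, n1 := g7, kk := hKG.cp, k10 := GFI_10 k hKG.q10, n2 := g8, k0 := hk0,
               D0 := hD0, D20 := g9 }
      · show n * (25 * M) = ph * star Y * (25 * k) - Y * star (25 * k)
        rw [e25]
        linear_combination 25 * g4
      · show 25 * k ∣ (25 * M) ^ 2 - star n * star (25 * k) ^ 2
        rw [e25]
        obtain ⟨w, hw⟩ := g5
        exact ⟨25 * w, by linear_combination 625 * hw⟩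
    · have e1 : ((|n.norm| : ℤ) : ℝ) ≤ (D : ℝ) := by push_cast; exact f4
      exact_mod_cast e1
    · intro l hl hlρ
      show ¬ (l : OO) ∣ n ∧ ¬ ((l : ℤ) ∣ k.norm ∧ (l : ℤ) ∣ n.norm)
      by_cases hlP : l ∣ 10 * P
      · refine ⟨fun hln => GFI_bad hl hln hlP g8 g7 g10, ?_⟩
        rintro ⟨hlk, -⟩
        have e1 : l ∣ k.norm.natAbs := Int.natCast_dvd.1 hlk
        have e2 : l ∣ 1 := by
          rw [← Nat.coprime_iff_gcd_eq_one.1 hcop]
          exact Nat.dvd_gcd e1 hlP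
        exact hl.one_lt.ne' (Nat.dvd_one.1 e2)
      · have hl2 : l ≠ 2 := by
          rintro rfl
          exact hlP ⟨5 * P, by ring⟩
        have hl5 : l ≠ 5 := by
          rintro rfl
          exact hlP ⟨2 * P, by ring⟩
        have hb : ¬ BadT l (k, M, s) := hbad l hl hlρ hlP
        obtain ⟨k1, k2⟩ := g11 l hl hl2 hl5
        refine ⟨fun hln => hb ⟨(k1 hln).1, Or.inl (k1 hln).2⟩, ?_⟩
        rintro ⟨hlk, hln⟩
        exact hb ⟨k2 hlk hln, Or.inr hlk⟩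
  have : Nonempty Pt := ⟨⟨0, 0, 0, 0, 0⟩⟩
  choose! f hf using hpt
  have hinj : Set.InjOn f (F : Set (OO × OO × ℤ)) := by
    rintro ⟨k, M, s⟩ hx ⟨k', M', s'⟩ hx' he
    obtain ⟨a1, a2, a3, -⟩ := hf _ hx
    obtain ⟨b1, b2, b3, -⟩ := hf _ hx'
    rw [he] at a1 a2 a3
    change _ = k at a1
    change _ = k' at b1
    change _ = 25 * M at a2
    change _ = 25 * M' at b2
    change _ = r5 * (s : OO) - (M.norm : OO) at a3
    change _ = r5 * (s' : OO) - (M'.norm : OO) at b3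
    have hkk : k = k' := a1.symm.trans b1
    subst hkk
    have hM : M = M' := by
      have e1 : (25 : OO) * M = 25 * M' := a2.symm.trans b2
      have e2 := congrArg QuadraticAlgebra.re e1
      have e3 := congrArg QuadraticAlgebra.im e1
      have r1 : (25 : OO).re = 25 := rfl
      have r2 : (25 : OO).im = 0 := rfl
      simp only [QuadraticAlgebra.re_mul, QuadraticAlgebra.im_mul, r1, r2] at e2 e3
      exact QuadraticAlgebra.ext (by linarith) (by linarith)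
    subst hM
    have hs : r5 * (s : OO) = r5 * (s' : OO) := by
      have e1 : r5 * (s : OO) - ((M).norm : OO) = r5 * (s' : OO) - ((M).norm : OO) := a3.symm.trans b3
      exact sub_left_injective e1
    have hs' : s = s' := by
      have e1 := congrArg QuadraticAlgebra.re hs
      simp [r5] at e1
      exact e1
    rw [hs']
  refine ⟨F.image f, ?_, ?_, ?_⟩
  · rw [card_image_of_injOn hinj]
    calc c * ρ ^ (-(2 / 3) : ℝ) * N = c * (ρ ^ (-(2 / 3) : ℝ) * N) := by ring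
      _ ≤ F.card := hF2
  · intro p hp
    obtain ⟨x, hx, rfl⟩ := mem_image.1 hp
    obtain ⟨-, -, -, a4, a5, a6, a7, a8⟩ := hf x hx
    exact ⟨a4, a5, a6, a7, a8⟩
  · intro p hp q hq hpq hqp
    obtain ⟨x, hx, rfl⟩ := mem_image.1 hp
    obtain ⟨y, hy, rfl⟩ := mem_image.1 hq
    rw [(hf x hx).1, (hf y hy).1] at hpq hqp ⊢
    exact hKT2 _ (hF1 x hx).1.kk _ (hF1 y hy).1.kk hpq hqp

end Pool.Agent.RF
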