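import Pool.Agent.helper67.RG.Spec2

/-!
# Project rg (MP_2e0e07_nt), row FLS: simultaneous flags on an open subgroup
-/

namespace Pool.Agent.RG.FLS

open Matrix Polynomial Pool.Agent.GO Pool.Agent.AR Pool.Agent.RG MeasureTheory Kronecker

universe u v

/-- An open subgroup of a compact group has finite index. -/
theorem FLS_open_index {Γ : Type u} [Group Γ] [TopologicalSpace Γ] [IsTopologicalGroup Γ]
    [CompactSpace Γ] (U : Subgroup Γ) (hU : IsOpen (U : Set Γ)) : U.FiniteIndex := by
  have : Finite (Γ ⧸ U) := Subgroup.quotient_finite_of_isOpen U hU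
  exact Subgroup.finiteIndex_of_finite_quotient

/-- A flag for an open subgroup is a flag for a smaller open subgroup. -/
theorem FLS_restrict {Γ : Type u} {F : Type v} [Group Γ] [TopologicalSpace Γ]
    [IsTopologicalGroup Γ] [CompactSpace Γ] [Field F] {n : ℕ}
    (V : Γ →* Matrix (Fin n) (Fin n) F) (U U' : Subgroup Γ) (hle : U' ≤ U)
    (hU' : IsOpen (U' : Set Γ)) {N : ℕ} {c : ℕ → Submodule F (Fin n → F)}
    (h : IsFlag (V.comp U.subtype) N c) : IsFlag (V.comp U'.subtype) N c := by
  refine ⟨h.bot, h.top, h.lt, ?_, ?_⟩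
  · intro i hi g x hx
    exact h.stable i hi ⟨g.1, hle g.2⟩ x hx
  · intro i hi H hH B hB h1 h2
    have hfU : U'.FiniteIndex := FLS_open_index U' hU'
    have hf : (H.map U'.subtype).FiniteIndex := by
      refine ⟨?_⟩
      rw [Subgroup.index_map_subtype]
      exact mul_ne_zero hH.index_ne_zero hfU.index_ne_zero
    have hf2 : ((H.map U'.subtype).subgroupOf U).FiniteIndex := inferInstance
    refine h.irr i hi _ hf2 B ?_ h1 h2
    intro g hg x hx
    rw [Subgroup.mem_subgroupOf, Subgroup.mem_map] at hg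
    obtain ⟨w, hw, hwg⟩ := hg
    have h3 := hB w hw x hx
    have h4 : (V.comp U.subtype) g = (V.comp U'.subtype) w := by
      simp only [MonoidHom.comp_apply, Subgroup.coe_subtype] at hwg ⊢
      rw [hwg]
    rw [h4]
    exact h3

/-- Row FLS. -/
theorem FLS (hF : FLG_stmt.{u, v, 0}) : FLS_stmt.{u, v} := by
  intro Γ F _ _ _ _ _ _ _ _ r n V hV U₀ hU₀
  classical
  have key : ∀ s : Finset (Fin r), ∃ U : Subgroup Γ, U ≤ U₀ ∧ IsOpen (U : Set Γ) ∧
      ∀ i ∈ s, ∃ (N : ℕ) (c : ℕ → Submodule F (Fin (n i) → F)),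
        IsFlag ((V i).comp U.subtype) N c := by
    intro s
    induction s using Finset.induction_on with
    | empty => exact ⟨U₀, le_rfl, hU₀, fun i hi => absurd hi (by simp)⟩
    | insert i s his ih =>
      obtain ⟨U, hUle, hUo, hU⟩ := ih
      obtain ⟨U', hU'le, hU'o, N, c, hc⟩ := hF (V i) (hV i) U hUo
      refine ⟨U', hU'le.trans hUle, hU'o, ?_⟩
      intro j hj
      rw [Finset.mem_insert] at hj
      rcases hj with rfl | hj
      · exact ⟨N, c, hc⟩
      · obtain ⟨N', c', hc'⟩ := hU j hj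
        exact ⟨N', c', FLS_restrict (V j) U U' hU'le hU'o hc'⟩
  obtain ⟨U, h1, h2, h3⟩ := key Finset.univ
  exact ⟨U, h1, h2, fun i => h3 i (Finset.mem_univ i)⟩

end Pool.Agent.RG.FLS
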